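import Pool.Agent.Lib.MP_bc213e_ag.KL.T.Noe
import Pool.Agent.Lib.MP_bc213e_ag.DB.Fibre

/-! Linear systems without base point generate the section ring in a uniform degree. -/

namespace Pool.Agent.Lib.MP_bc213e_ag.DD.Geo

variable {K M ι : Type} [Field K] [Algebra ℂ K] [Field M] [Algebra ℂ M] [Algebra K M] {n : ℕ}
  {S : Su K M ι n} {Ω E : Type} [Field Ω] [Algebra ℂ Ω] [Field E] [Algebra ℂ E] [Algebra Ω E]
  [IsScalarTower ℂ Ω E] {b φ : ℕ} (G : Geo S Ω E b φ) [IsScalarTower ℂ K M] [Fintype ι]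

/-- Sketch: `KL.noe` with `V = R N`, `A a = R (a + μ₀)`, `B a = R (a + μ₀ + N)`, `μ₀` from `R_gen`
(`fibre_V`, `fibre_mul`); `genhi`. -/
theorem genhi_unif (N : ℕ) : ∃ a₁, ∀ H ≤ G.R N,
    (∀ j, (1 : E) ∈ Submodule.span (G.C j) ((fun w => w / G.X j ^ N) '' H)) →
      ∀ a, a₁ ≤ a → G.R (a + N) ≤ H * G.R a := by
  obtain ⟨μ₀, hμ⟩ := G.R_gen
  have := G.fd_R N
  obtain ⟨a₁, h⟩ := KL.noe (G.R N) (fun a => G.R (a + μ₀)) (fun a => G.R (a + μ₀ + N))
    (fun a => G.fd_R _) (fun a => (G.fibre_mul _ _).trans_eq (by rw [add_comm]))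
    fun a H _ hH => by
      rw [show a + 1 + μ₀ + N = a + μ₀ + N + 1 by omega, show a + 1 + μ₀ = 1 + (a + μ₀) by omega]
      refine (hμ _ (by omega)).trans ((mul_le_mul_right hH _).trans ?_)
      rw [mul_left_comm]
      exact mul_le_mul_right ((mul_le_mul_left G.fibre_V _).trans (G.fibre_mul _ _)) _
  refine ⟨a₁ + μ₀, fun H hH h1 a ha => ?_⟩
  obtain ⟨a₀, h0⟩ := G.genhi hH h1
  have := h H hH ⟨a₀, h0 _ (Nat.le_add_right _ _)⟩ (a - μ₀) (by omega)
  rwa [Nat.sub_add_cancel (by omega)] at this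

/-- Sketch: these `h` lie in `DB.Bd Ω G.X N` (`fibre_C_le`, compare `R_le_Bd`), which has finite
dimension (`DB.gcd_dim`, compare `R_dim`); they form a subspace; `homog` on a basis. -/
theorem exists_sat (N : ℕ) : ∃ c, ∀ h : E, (∀ l, h / G.X l ^ N ∈ G.C l) →
    ∀ l, h * G.X l ^ c ∈ G.R (N + c) := by
  have : CharZero Ω := charZero_of_injective_algebraMap (algebraMap ℂ Ω).injective
  let T : Submodule Ω E :=
    { carrier := {h | ∀ l, h / G.X l ^ N ∈ G.C l}
      add_mem' := fun ha hb l => by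
        rw [add_div]
        exact add_mem (ha l) (hb l)
      zero_mem' := fun l => by
        rw [zero_div]
        exact zero_mem _
      smul_mem' := fun c z hz l => by
        rw [smul_div_assoc]
        exact Subalgebra.smul_mem _ (hz l) c }
  have hT : T ≤ DB.Bd Ω G.X N := by
    intro w hw O c h1 _ _ h4
    obtain ⟨j, -, hj⟩ := Finset.univ.exists_max_image (fun l => O.valuation (G.X l))
      ⟨S.i₀, Finset.mem_univ _⟩
    have h5 := G.fibre_C_le O h1 j (fun l => (O.valuation_le_one_iff _).1 (by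
      rw [map_div₀]
      exact div_le_one_of_le₀ (hj l (Finset.mem_univ _)) zero_le)) (hw j)
    have h6 := mul_mem h5 (pow_mem (h4 j) N)
    rwa [div_pow, div_mul_div_cancel₀ (pow_ne_zero _ (G.X_ne j))] at h6
  obtain ⟨B, hB⟩ := DB.gcd_dim G.X _ G.fibre_hw (G.gen_E S.i₀) G.trdeg_E
  have := (hB N).1
  obtain ⟨t, ht⟩ := (Submodule.fg_iff_finiteDimensional T).2 (Submodule.finiteDimensional_of_le hT)
  choose m hm using fun (w : t) (l : ι) =>
    G.homog ((ht ▸ Submodule.subset_span w.2 : w.1 ∈ T) l)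
  refine ⟨Finset.univ.sup fun q : t × ι => m q.1 q.2, fun h hh l => ?_⟩
  have key : T ≤ (G.R (N + Finset.univ.sup fun q : t × ι => m q.1 q.2)).comap
      (LinearMap.mulRight Ω (G.X l ^ Finset.univ.sup fun q : t × ι => m q.1 q.2)) := by
    rw [← ht]
    refine Submodule.span_le.2 fun w hw => ?_
    have := hm ⟨w, hw⟩ l _ ((Finset.le_sup (f := fun q : t × ι => m q.1 q.2)
      (Finset.mem_univ (⟨w, hw⟩, l))).trans (Nat.le_add_left _ N))
    rwa [pow_add, mul_right_comm, mul_div_cancel₀ _ (pow_ne_zero _ (G.X_ne l))] at this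
  exact key hh

/-- Sketch: `genhi_unif` for the span of the elements `h * X l ^ c`. -/
theorem genu [IsAlgClosed Ω] (N : ℕ) : ∃ a₁, ∀ H : Submodule Ω E,
    (∀ h ∈ H, ∀ l, h / G.X l ^ N ∈ G.C l) →
    (∀ (j : ι) (ev : G.C j →ₐ[Ω] Ω), ∃ h ∈ H, ∃ f : G.C j, (f : E) = h / G.X j ^ N ∧ ev f ≠ 0) →
      ∀ a, a₁ ≤ a → G.R (a + N) ≤ H * G.R a := by
  obtain ⟨c, hc⟩ := G.exists_sat N
  obtain ⟨a₁, h⟩ := G.genhi_unif (N + c)
  refine ⟨a₁ + c, fun H hH hev a ha => ?_⟩
  have h1 : H * Submodule.span Ω (Set.range fun l => G.X l ^ c) ≤ G.R (N + c) :=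
    Submodule.mul_le.2 fun w hw z hz =>
      (Submodule.span_le (p := (G.R (N + c)).comap (LinearMap.mulLeft Ω w))).2
        (Set.range_subset_iff.2 (hc w (hH w hw))) hz
  have h2 : Submodule.span Ω (Set.range fun l => G.X l ^ c) ≤ G.R c :=
    Submodule.span_le.2 (Set.range_subset_iff.2 fun l => G.fibre_V_pow c
      (Submodule.pow_mem_pow _ (Submodule.subset_span (Set.mem_range_self l)) c))
  have h3 := h _ h1 (fun j => G.null j (by
    rintro _ ⟨w, hw, rfl⟩
    exact div_mem_C (h1 hw) j) fun ev => by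
      obtain ⟨w, hw, f, hf, hf'⟩ := hev j ev
      refine ⟨f, ⟨_, Submodule.mul_mem_mul hw (Submodule.subset_span ⟨j, rfl⟩), ?_⟩, hf'⟩
      rw [hf, pow_add]
      exact mul_div_mul_right _ _ (pow_ne_zero _ (G.X_ne j))) (a - c) (by omega)
  rw [show a - c + (N + c) = a + N by omega, mul_assoc] at h3
  refine h3.trans (mul_le_mul_right ((mul_le_mul_left h2 _).trans ((G.fibre_mul _ _).trans_eq ?_)) _)
  rw [Nat.add_sub_cancel' (by omega)]

end Pool.Agent.Lib.MP_bc213e_ag.DD.Geo
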