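import Pool.Agent.Lib.MP_bc213e_ag.DC.F1

/-! Monomials in the generators of a chart. -/

namespace Pool.Agent.Lib.MP_bc213e_ag.DD.Geo

variable {K M ι : Type} [Field K] [Algebra ℂ K] [Field M] [Algebra ℂ M] [Algebra K M] {n : ℕ}
  {S : Su K M ι n} {Ω E : Type} [Field Ω] [Algebra ℂ Ω] [Field E] [Algebra ℂ E] [Algebra Ω E]
  [IsScalarTower ℂ Ω E] {b φ : ℕ} {G : Geo S Ω E b φ} [Fintype ι]

theorem mon_mem_R {e : ℕ} {j : ι} (he : ∀ o, S.X j ^ e * S.gen j o ∈ S.U e)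
    (κ : Option ι → ℕ) {A : ℕ} (h : e * ∑ o, κ o ≤ A) :
    G.X j ^ A * ∏ o, G.ι (S.gen j o) ^ κ o ∈ G.R A := by
  have key : ∀ s : Finset (Option ι), G.X j ^ (e * ∑ o ∈ s, κ o) *
      ∏ o ∈ s, G.ι (S.gen j o) ^ κ o ∈ G.R (e * ∑ o ∈ s, κ o) := fun s => by
    classical
    induction s using Finset.induction_on with
    | empty => simpa using G.one_mem_R 0
    | insert o s ho ih =>
      have h1 := G.ι_mem_R (Su.pow_mem_U (he o) (κ o))
      rw [map_pow, map_mul, map_pow, mul_comm (κ o)] at h1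
      rw [Finset.sum_insert ho, Finset.prod_insert ho, mul_add, pow_add, mul_mul_mul_comm, pow_mul,
        ← mul_pow]
      exact mul_mem_R h1 ih
  obtain ⟨r, rfl⟩ := Nat.exists_eq_add_of_le h
  rw [pow_add, mul_right_comm]
  exact mul_mem_R (key _) (G.f1_pow j r)

end Pool.Agent.Lib.MP_bc213e_ag.DD.Geo
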