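import Pool.Agent.Lib.MP_bc213e_ag.DC.T1
import Pool.Agent.Lib.MP_bc213e_ag.DC.T2

/-! The transfer theorem for products of leading coefficients. -/

namespace Pool.Agent.Lib.MP_bc213e_ag.DC

open MvPowerSeries Filter Jet

theorem prod_nat {n : ℕ} (a : Fin n → ℕ) (t : ℕ) (h : t ≤ ∑ u, a u) :
    ∃ d : Fin n → ℕ, (∀ u, d u ≤ a u) ∧ ∑ u, d u = t := by
  induction n generalizing t with
  | zero => exact ⟨a, fun _ => le_rfl, h.antisymm' (Nat.zero_le _)⟩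
  | succ n ih =>
    rw [Fin.sum_univ_succ] at h
    obtain ⟨d, h1, h2⟩ := ih (fun u => a u.succ) (t - a 0) (by omega)
    refine ⟨Fin.cons (min t (a 0)) d, Fin.cases (min_le_right _ _) h1, ?_⟩
    rw [Fin.sum_cons, h2]
    omega

theorem split_le {σ : Type} {n : ℕ} (a : Fin n → σ →₀ ℕ) (t : σ →₀ ℕ) (h : t ≤ ∑ u, a u) :
    ∃ d : Fin n → σ →₀ ℕ, (∀ u, d u ≤ a u) ∧ ∑ u, d u = t := by
  choose d h1 h2 using fun s => prod_nat (fun u => a u s) (t s)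
    ((h s).trans_eq (Finsupp.finsetSum_apply _ _ _))
  exact ⟨fun u => .onFinset (a u).support (fun s => d s u) fun s hs => Finsupp.mem_support_iff.2
    fun e => hs (Nat.le_zero.1 (e ▸ h1 s u)), fun u s => h1 s u,
    Finsupp.ext fun s => (Finsupp.finsetSum_apply _ _ _).trans (h2 s)⟩

theorem split_fun {σ : Type} {n : ℕ} (a : Fin n → ℕ) (t : σ → ℕ) (h : ∀ s, t s ≤ ∑ u, a u) :
    ∃ d : Fin n → σ → ℕ, (∀ u s, d u s ≤ a u) ∧ ∀ s, ∑ u, d u s = t s := by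
  choose d h1 h2 using fun s => prod_nat a (t s) (h s)
  exact ⟨fun u s => d s u, fun u s => h1 s u, h2⟩

/-- `p` is a sum of numbers in `[N, 2 N)`. -/
theorem split_nat {N p : ℕ} (hN : 0 < N) (h : N ≤ p) :
    ∃ (n : ℕ) (a : Fin n → ℕ), (∀ u, N ≤ a u ∧ a u < 2 * N) ∧ ∑ u, a u = p := by
  have h1 := Nat.mod_lt (p - N) hN
  have h2 := Nat.mod_add_div' (p - N) N
  refine ⟨(p - N) / N + 1, Fin.cons (N + (p - N) % N) fun _ => N, Fin.cases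
    (by rw [Fin.cons_zero]; omega) fun _ => by rw [Fin.cons_succ]; omega, ?_⟩
  rw [Fin.sum_cons, Finset.sum_const, Finset.card_fin, smul_eq_mul]
  omega

variable {Ω ρ σ J Cc : Type} [Field Ω] [Fintype ρ] [DecidableEq ρ] [Fintype σ] [DecidableEq σ]
  [Fintype J] [Fintype Cc] (T : Dat Ω ρ σ J Cc) (mo : MonomialOrder σ)

theorem Dat.prod (m a : ℕ) (γ : σ →₀ ℕ) {B : Type} [Finite B] (y : B → MvPowerSeries ρ Ω)
    (δ : B → σ →₀ ℕ) (K : B → ℕ) (hy : ∀ b, y b ∈ Wl mo (T.UU (K b * m) (K b * a)) (δ b)) :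
    ∀ᶠ r in RF Ω, ∃ c : Car r.k (MvPowerSeries ρ r.k) ρ r.p, (c.der = fun i => pderiv r.k i) ∧
      ∀ n₀, r.p = T.M.ix * n₀ + 1 → ∀ (n : ℕ) (φ : Fin n → B), ∑ t, K (φ t) ≤ r.p →
        ∑ t, δ (φ t) = ex r.p γ →
        (C (c.Φ (t2_rd σ r (constantCoeff T.M.θ) ^ n₀ * ∏ t, t2_rd σ r (y (φ t)))) :
          SS r.k ρ σ) ∈ r.redS ((Wl mo (T.UU m a) γ).map (CL Ω ρ σ)) := by
  choose f h1 h2 h3 using fun b => (mem_Wl mo).1 (hy b)
  filter_upwards [T.tt mo m a γ f K h1] with r ⟨c, h4, _, h5⟩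
  refine ⟨c, h4, fun n₀ hp n φ hK hδ => ?_⟩
  obtain ⟨g1, g2⟩ := t1_prod mo Finset.univ (fun t => r.red (f (φ t))) (fun t => δ (φ t))
    fun t => t2_fil mo r (h2 _)
  rw [hδ] at g1 g2
  have h6 := h5 n₀ hp n φ hK g1
  rw [g2, ← coeff_zero_eq_constantCoeff_apply, t2_coeff, coeff_zero_eq_constantCoeff_apply] at h6
  simpa only [t2_coeff, h3] using h6

end Pool.Agent.Lib.MP_bc213e_ag.DC
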