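import Pool.Agent.Lib.MP_bc213e_ag.KL.T.Key
import Pool.Agent.Lib.MP_bc213e_ag.KL.T.Prod
import Pool.Agent.Lib.MP_bc213e_ag.KL.T.Mon

/-! Leading coefficients without base point on a klt fibre. -/

namespace Pool.Agent.Lib.MP_bc213e_ag.DD.Geo

open Pool.Agent.Lib.MP_bc213e_ag.KL Pool.Agent.Lib.MP_bc213e_ag.DC MvPowerSeries Filter

variable {K M ι : Type} [Field K] [Algebra ℂ K] [Field M] [Algebra ℂ M] [Algebra K M] {n : ℕ}
  {S : Su K M ι n} {Ω E : Type} [Field Ω] [Algebra ℂ Ω] [Field E] [Algebra ℂ E] [Algebra Ω E]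
  [IsScalarTower ℂ Ω E] {b φ : ℕ} {G : Geo S Ω E b φ} [IsScalarTower ℂ K M] [Fintype ι]
  [CharZero E]

theorem t1k_rd {Ω ρ σ N : Type} [Field Ω] [Fintype N] {r : Rd Ω} {y : MvPowerSeries ρ Ω}
    {z : N → MvPowerSeries ρ Ω} (hy : (MvPowerSeries.C y : SS Ω ρ σ) ∈ IS r.Λ)
    (hz : ∀ o, (MvPowerSeries.C (z o) : SS Ω ρ σ) ∈ IS r.Λ) {n : ℕ} (d : Fin n → N → ℕ) :
    ∏ t, t2_rd σ r (y * ∏ o, z o ^ d t o) =
      t2_rd σ r y ^ n * ∏ o, t2_rd σ r (z o) ^ ∑ t, d t o := by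
  have h1 : ∀ o k, (MvPowerSeries.C (z o ^ k) : SS Ω ρ σ) ∈ IS r.Λ := fun o k => by
    rw [map_pow]
    exact pow_mem (hz o) k
  have h2 : ∀ t, t2_rd σ r (y * ∏ o, z o ^ d t o) =
      t2_rd σ r y * ∏ o, t2_rd σ r (z o) ^ d t o := fun t => by
    rw [t2_mul hy (by rw [map_prod]; exact prod_mem fun o _ => h1 o _), t2_prod fun o => h1 o _]
    simp only [t2_pow (hz _)]
  simp only [h2, Finset.prod_mul_distrib, Finset.prod_const, Finset.card_univ, Fintype.card_fin]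
  rw [Finset.prod_comm]
  simp only [Finset.prod_pow_eq_pow_sum]

/-- Sketch: by contradiction; `H = (G.W m a γ).map (mulRight (X j ^ a)⁻¹)`, so that
`H.map T.τF = Wl (T.VT m a) γ` (`mem_Wl_VT`). `T.exists_dat`, `Dat.prod` with
`B = Set.Iic (α₁ + α₂) × (Option ι → Fin (q₀ + 1))`, `K = q₀`, and
`y (δ, κ) = τF (ι w') * ∏ τF (ι gen) ^ κ` for `w' = w / X j ^ (K₁ * a)` (compare `f1` in `DC/F1`:
`W_mul`, `X_pow_mem_W`, `W_mono`, `W_down`, `T.homF`). `Tau.key` with `q = q₀`; `p = q₀ n₁ + 1`,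
`n₁ ≥ 1` (`ev_large`), split `ex p γ` by `t1_split` and the exponent `γ' < p` by `split_fun`;
`t2_mul`, `t2_pow`, `t2_prod` with `good_F`; `τ_const`. -/
theorem Tau.t1k {c₀ e₀ : ℕ} {j : ι} {ev₀ : G.C j →ₐ[Ω] Ω} (T : G.Tau c₀ e₀ j ev₀)
    (hO : ∀ f, f ∈ T.O) (A : Af G.k M (Option ι) φ S.m) (ht : A.t = S.gen j)
    (hu : ∀ z : Fin φ → M, S.mu (Sum.elim G.y z ∘ G.ε) = A.u * Jac A.D z ^ S.m) (hφ : 1 ≤ φ)
    {e : ℕ} (he : ∀ o, S.X j ^ e * S.gen j o ∈ S.U e) {m a K₁ K₂ q₀ : ℕ} {α₁ α₂ γ : Fin b →₀ ℕ}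
    {w : M} (h0 : w ≠ 0) (h₁ : G.ι w ∈ G.W (K₁ * m) (K₁ * a) α₁)
    (hw : w / S.X j ^ (K₁ * a) ∈ A.R) (hq0 : 0 < q₀) (klt : A.Klt (w / S.X j ^ (K₁ * a)) q₀)
    (h₂ : G.W (K₂ * m) (K₂ * a) α₂ = G.R (K₂ * a)) (hγ : (q₀ + 1) • (γ + uno b) ≤ α₁ + α₂)
    (hq : K₁ + K₂ ≤ q₀) (he' : e * (Fintype.card ι + 1) * q₀ ≤ K₂ * a) (ev : G.C j →ₐ[Ω] Ω) :
    ∃ w' ∈ G.W m a γ, ∃ f : G.C j, (f : E) = w' / G.X j ^ a ∧ ev f ≠ 0 := by
  have : CharZero Ω := charZero_of_injective_algebraMap (algebraMap ℂ Ω).injective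
  by_contra hcon
  push Not at hcon
  obtain ⟨c, Δ, hΔ, hθ, hx⟩ := T.exists_dat
  have := G.fd_R a
  have := Submodule.finiteDimensional_of_le (G.W_le_R m a γ)
  have hH : ((G.W m a γ).map (LinearMap.mulRight Ω (G.X j ^ a)⁻¹)).map T.τF =
      Jet.Wl MonomialOrder.degLex (Δ.UU m a) γ := by
    ext ψ
    simp only [hΔ, T.mem_Wl_VT, Submodule.mem_map, LinearMap.mulRight_apply, div_eq_mul_inv,
      exists_exists_and_eq_and]
  let ψ : M →* MvPowerSeries (Fin φ) Ω :=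
    ⟨⟨fun f => T.τF (G.ι f), by rw [map_one, T.τF_one]⟩, fun f f' =>
      (congrArg T.τF (map_mul G.ι f f')).trans
        (T.τF_mul _ (T.ι_mem (hO f)) _ (T.ι_mem (hO f')))⟩
  have gd : ∀ f, (MvPowerSeries.C (T.τF (G.ι f)) : SS Ω (Fin φ) (Fin b)) ∈
      Good Ω (Fin φ) (Fin b) := fun f => T.good_F (Submodule.subset_span ⟨f, hO f, rfl⟩)
  have f1 : Finite (Set.Iic (α₁ + α₂)) := (Set.finite_Iic _).to_subtype
  have e1 := Δ.prod MonomialOrder.degLex m a γ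
    (B := Set.Iic (α₁ + α₂) × (Option ι → Fin (q₀ + 1)))
    (fun β => T.τF (G.ι (w / S.X j ^ (K₁ * a))) * ∏ o, T.τF (G.ι (S.gen j o)) ^ (β.2 o : ℕ))
    (fun β => β.1) (fun _ => q₀) fun β => by
      have hk : ∑ o, (β.2 o : ℕ) ≤ (Fintype.card ι + 1) * q₀ := by
        simpa using Finset.sum_le_card_nsmul Finset.univ (fun o => (β.2 o : ℕ)) q₀
          fun o _ => Nat.le_of_lt_succ (β.2 o).2
      have r₂ := mon_mem_R (G := G) he (fun o => β.2 o) (A := K₂ * a)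
        ((Nat.mul_le_mul_left e hk).trans (by rwa [← mul_assoc]))
      obtain ⟨r, hr⟩ := Nat.exists_eq_add_of_le
        ((add_mul K₁ K₂ a).symm.trans_le (Nat.mul_le_mul_right a hq))
      have h3 := W_mul (W_mul h₁ (h₂.ge r₂)) (G.X_pow_mem_W j r)
      rw [add_zero, add_zero, ← hr] at h3
      have h4 := G.W_down _ _ β.1.2 (G.W_mono
        ((add_mul K₁ K₂ m).symm.trans_le (Nat.mul_le_mul_right m hq)) le_rfl _ h3)
      refine hΔ _ _ ▸ T.mem_Wl_VT.2 ⟨_, h4, ?_⟩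
      have h5 := map_mul ψ (w / S.X j ^ (K₁ * a)) (∏ o, S.gen j o ^ (β.2 o : ℕ))
      rw [map_prod ψ] at h5
      simp only [map_pow ψ] at h5
      refine Eq.trans (congrArg T.τF ?_) h5
      have hX := G.X_ne j
      simp only [map_mul, map_div₀, map_prod, map_pow, hr, pow_add]
      change _ = G.ι w / G.X j ^ (K₁ * a) * _
      field_simp
  have hw0 : w / S.X j ^ (K₁ * a) ≠ 0 := div_ne_zero h0 (pow_ne_zero _ (S.X_ne j))
  obtain ⟨r, ⟨n₀, n₁, p0, p1, hk⟩, ⟨ca, hder, htt⟩, iw, ig, hp⟩ :=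
    ((T.key hO A ht hu hφ hw hw0 hq0 klt ev ((G.W m a γ).map (LinearMap.mulRight Ω (G.X j ^ a)⁻¹))
      (by
        rintro _ ⟨w', h1, rfl⟩
        exact ⟨⟨w' / G.X j ^ a, div_mem_C (G.W_le_R _ _ _ h1) j⟩, div_eq_mul_inv _ _,
          hcon w' h1 _ rfl⟩)).and_eventually (e1.and ((mem_Good.1 (gd (w / S.X j ^ (K₁ * a)))).and
        ((eventually_all.2 fun o => mem_Good.1 (gd (S.gen j o))).and (ev_large 1))))).exists
  obtain ⟨γ', g1, g2⟩ := hk ca hder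
  have hn : 1 ≤ n₁ := Nat.pos_of_ne_zero fun h => by simp [p1, h] at hp
  obtain ⟨d, hd1, hd2⟩ := t1_split (α₁ + α₂) n₁ (ex r.p γ) fun s => by
    have e2 : (q₀ + 1) * (γ s + 1) ≤ (α₁ + α₂) s := hγ s
    have e3 := Nat.mul_le_mul_left n₁ e2
    have e4 : r.p * (γ s + 1) ≤ n₁ * (q₀ + 1) * (γ s + 1) :=
      Nat.mul_le_mul_right _ (by rw [p1, mul_add, mul_comm]; omega)
    rw [ex_apply]
    rw [← mul_assoc] at e3
    rw [mul_add r.p, mul_one] at e4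
    omega
  obtain ⟨κ, hκ1, hκ2⟩ := split_fun (fun _ : Fin n₁ => q₀) γ' fun o => by
    have := g1 o
    rw [p1, mul_comm] at this
    simpa using Nat.le_of_lt_succ this
  have h6 := htt n₀ (hx ▸ p0) n₁
    (fun t => (⟨d t, hd1 t⟩, fun o => ⟨κ t o, Nat.lt_succ_of_le (hκ1 t o)⟩))
    (by simp [p1, mul_comm]) hd2
  rw [hθ, T.τ_const _ T.θ_mem, t1k_rd iw ig κ, ← hH] at h6
  simp only [hκ2] at h6
  exact g2 h6

end Pool.Agent.Lib.MP_bc213e_ag.DD.Geo
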