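import Pool.Agent.Lib.MP_bc213e_ag.KL.T.Key
import Pool.Agent.Lib.MP_bc213e_ag.KL.T.Prod
import Pool.Agent.Lib.MP_bc213e_ag.KL.T.Mon
import Pool.Agent.Lib.MP_bc213e_ag.DC.F2

/-! Multipliers without base point on a klt fibre. -/

namespace Pool.Agent.Lib.MP_bc213e_ag.DD.Geo

open Pool.Agent.Lib.MP_bc213e_ag.KL Pool.Agent.Lib.MP_bc213e_ag.DC MvPowerSeries Filter

variable {K M ι : Type} [Field K] [Algebra ℂ K] [Field M] [Algebra ℂ M] [Algebra K M] {n : ℕ}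
  {S : Su K M ι n} {Ω E : Type} [Field Ω] [Algebra ℂ Ω] [Field E] [Algebra ℂ E] [Algebra Ω E]
  [IsScalarTower ℂ Ω E] {b φ : ℕ} {G : Geo S Ω E b φ} [IsScalarTower ℂ K M] [Fintype ι]
  [CharZero E]

theorem t2_fin {I O σ : Type} [Finite I] [Fintype O] (N : ℕ) (β : σ →₀ ℕ) :
    Finite {x : I × ℕ × (O → ℕ) × (σ →₀ ℕ) //
      (N ≤ x.2.1 ∧ x.2.1 < 2 * N) ∧ (∀ o, x.2.2.1 o ≤ x.2.1) ∧ x.2.2.2 ≤ x.2.1 • β} := by
  classical
  refine Set.Finite.to_subtype (Set.Finite.subset ((Set.finite_univ (α := I)).prod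
    ((Set.finite_Iic (2 * N)).prod ((Set.finite_Iic (fun _ : O => 2 * N)).prod
      (Set.finite_Iic ((2 * N) • β))))) ?_)
  rintro ⟨i, k, κ, δ⟩ ⟨⟨-, h1⟩, h2, h3⟩
  refine ⟨trivial, h1.le, fun o => (h2 o).trans h1.le, h3.trans fun s => ?_⟩
  exact Nat.mul_le_mul_right _ h1.le

theorem t2_one {F ρ σ : Type} [Field F] (r : Rd F) : t2_rd σ r (1 : MvPowerSeries ρ F) = 1 := by
  rw [t2_rd, map_one, Rd.red_one, map_one]

theorem t2_mon {F ρ σ O : Type} [Field F] [Fintype O] {r : Rd F} {u : MvPowerSeries ρ F}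
    {z : O → MvPowerSeries ρ F} (hu : (MvPowerSeries.C u : SS F ρ σ) ∈ IS r.Λ)
    (hz : ∀ o, (MvPowerSeries.C (z o) : SS F ρ σ) ∈ IS r.Λ) (k : ℕ) (κ : O → ℕ) :
    t2_rd σ r (u ^ k * ∏ o, z o ^ κ o) = t2_rd σ r u ^ k * ∏ o, t2_rd σ r (z o) ^ κ o := by
  have h1 : ∀ o, (MvPowerSeries.C (z o ^ κ o) : SS F ρ σ) ∈ IS r.Λ := fun o => by
    rw [map_pow]
    exact pow_mem (hz o) _
  rw [t2_mul (by rw [map_pow]; exact pow_mem hu k)
    (by rw [map_prod]; exact prod_mem fun o _ => h1 o), t2_pow hu, t2_prod h1]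
  exact congrArg _ (Finset.prod_congr rfl fun o _ => t2_pow (hz o) _)

omit [CharZero E] in
theorem Tau.t2_lead {c₀ e₀ : ℕ} {j : ι} {ev₀ : G.C j →ₐ[Ω] Ω} (T : G.Tau c₀ e₀ j ev₀)
    {e : ℕ} (he : ∀ o, S.X j ^ e * S.gen j o ∈ S.U e) {a' N k : ℕ}
    (hN : e * (Fintype.card ι + 1) ≤ N) {g : E} (hg : g ∈ G.R a') {κ : Option ι → ℕ}
    (hκ : ∀ o, κ o ≤ k) : ∃ w ∈ G.R (k * (a' + N)), T.τF (w / G.X j ^ (k * (a' + N))) =
      T.τF (g / G.X j ^ a') ^ k * ∏ o, T.τF (G.ι (S.gen j o)) ^ κ o := by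
  have h1 : ∑ o, κ o ≤ (Fintype.card ι + 1) * k := by
    simpa using Finset.sum_le_card_nsmul Finset.univ κ k fun o _ => hκ o
  have h2 : e * ∑ o, κ o ≤ k * N :=
    (Nat.mul_le_mul_left e h1).trans (by
      rw [← mul_assoc, mul_comm k]
      exact Nat.mul_le_mul_right k hN)
  have h3 := mul_mem_R (f2_pow_R hg k) (mon_mem_R (G := G) he κ h2)
  rw [← mul_add] at h3
  refine ⟨_, h3, ?_⟩
  have og := T.C_le (div_mem_C hg j)
  have oz : ∀ o, G.ι (S.gen j o) ∈ T.OF := fun o => T.C_le (G.ι_mem_C (S.gen_mem j o))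
  have e1 := map_mul T.homF (⟨_, og⟩ ^ k) (∏ o, ⟨_, oz o⟩ ^ κ o)
  rw [map_pow, map_prod] at e1
  simp only [map_pow] at e1
  simp only [T.homF_apply, MulMemClass.coe_mul, SubmonoidClass.coe_pow,
    SubmonoidClass.coe_finsetProd] at e1
  rw [← e1]
  congr 1
  have hX := G.X_ne j
  rw [div_pow, ← pow_mul, mul_add, pow_add, mul_comm a' k]
  field_simp

omit [Fintype ι] in
theorem Tau.t2_le {c₀ e₀ : ℕ} {j : ι} {ev₀ : G.C j →ₐ[Ω] Ω} (T : G.Tau c₀ e₀ j ev₀)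
    {m a' N : ℕ} {α : Fin b →₀ ℕ} {I : Type} [Fintype I] {g : I → E} (hg : ∀ i, g i ∈ G.R a')
    (hs : G.R a' ≤ Submodule.span Ω (Set.range g)) {H : Submodule Ω E}
    (hH : ∀ u, (∀ x ∈ G.R a', u * G.X j ^ N * x ∈ G.W m (a' + N) α) → u ∈ H) :
    (Jet.Wl MonomialOrder.degLex (T.VT m (a' + N)) α).map (CL Ω (Fin φ) (Fin b)) ⊓
      ⨅ i ∈ (Finset.univ : Finset I),
        ((Jet.Wl MonomialOrder.degLex (T.VT m (a' + N)) α).map (CL Ω (Fin φ) (Fin b))).comap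
          (LinearMap.mulRight Ω (MvPowerSeries.C (T.τF (g i / G.X j ^ a')))) ≤
      (H.map T.τF).map (CL Ω (Fin φ) (Fin b)) := by
  rintro _ ⟨⟨ψ, h1, rfl⟩, h2⟩
  obtain ⟨w, hw, rfl⟩ := T.mem_Wl_VT.1 h1
  refine ⟨_, ⟨_, hH _ fun x hx => ?_, rfl⟩, rfl⟩
  refine (Submodule.span_le (p := (G.W m (a' + N) α).comap
    (LinearMap.mulLeft Ω (w / G.X j ^ (a' + N) * G.X j ^ N)))).2 ?_ (hs hx)
  rintro _ ⟨i, rfl⟩
  obtain ⟨ψ, h3, h4⟩ := (Submodule.mem_iInf _).1 ((Submodule.mem_iInf _).1 h2 i) (Finset.mem_univ i)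
  obtain ⟨w', hw', rfl⟩ := T.mem_Wl_VT.1 h3
  have o1 := T.C_le (div_mem_C (G.W_le_R _ _ _ hw) j)
  have o2 := T.C_le (div_mem_C (G.W_le_R _ _ _ hw') j)
  have o3 := T.C_le (div_mem_C (hg i) j)
  rw [CL_apply, CL_apply, LinearMap.mulRight_apply, ← map_mul, ← T.τF_mul _ o1 _ o3] at h4
  have h5 := T.τF_inj _ (sub_mem o2 (mul_mem o1 o3)) (by rw [map_sub, C_injective h4, sub_self])
  have hX := G.X_ne j
  have h6 : w / G.X j ^ (a' + N) * G.X j ^ N * g i = w' := by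
    rw [sub_eq_zero, div_eq_iff (pow_ne_zero _ hX)] at h5
    rw [h5, pow_add]
    field_simp
  change w / G.X j ^ (a' + N) * G.X j ^ N * g i ∈ G.W m (a' + N) α
  rwa [h6]

/-- Sketch: by contradiction. Let `a = a' + N`, `g i` a finite family that spans `R a'` with
`g i₀ = X j ^ a'`, `H` the space of `h / X j ^ N` with `h * R a' ≤ W m a α` (inside
`W m a α / X j ^ a`, so of finite dimension), `W' = (Wl (T.VT m a) α).map CL`. `Tau.key` with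
`w = 1`, `q = 1`. `Dat.prod` with the factors `(g i) ^ k * X j ^ (k * N) * ∏ gen ^ κ` in
`R (k * a) = W (k * m) (k * a) (k • (α + uno b))`, `N₁ ≤ k < 2 N₁`, `κ ≤ k`, `δ ≤ k • (α + uno b)`
(`mon_mem_R`, `f2_pow_R`, `W_down`); `split_nat`, `split_le`, `split_fun`. With `Φ_mul` this gives
`y * red (τF (g i / X j ^ a')) ∈ redS W'` for `y = C (Φ (θ ^ n₀ * ∏ gen ^ γ))`. `datr_inf` and
`τF_inj` give `y ∈ redS ((H.map τF).map CL)`. -/
theorem Tau.t2k {c₀ e₀ : ℕ} {j : ι} {ev₀ : G.C j →ₐ[Ω] Ω} (T : G.Tau c₀ e₀ j ev₀)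
    (hO : ∀ f, f ∈ T.O) (A : Af G.k M (Option ι) φ S.m) (ht : A.t = S.gen j)
    (hu : ∀ z : Fin φ → M, S.mu (Sum.elim G.y z ∘ G.ε) = A.u * Jac A.D z ^ S.m) (hφ : 1 ≤ φ)
    (klt : A.Klt 1 1) {e : ℕ} (he : ∀ o, S.X j ^ e * S.gen j o ∈ S.U e) {m a' N : ℕ}
    (hN : e * (Fintype.card ι + 1) ≤ N) {α : Fin b →₀ ℕ}
    (H : ∀ᶠ k : ℕ in atTop,
      G.W (k * m) (k * (a' + N)) (k • (α + uno b)) = G.R (k * (a' + N)))
    (ev : G.C j →ₐ[Ω] Ω) :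
    ∃ h : E, (∀ g ∈ G.R a', h * g ∈ G.W m (a' + N) α) ∧
      ∃ f : G.C j, (f : E) = h / G.X j ^ N ∧ ev f ≠ 0 := by
  have : CharZero Ω := charZero_of_injective_algebraMap (algebraMap ℂ Ω).injective
  by_contra hcon
  have hX := G.X_ne j
  obtain ⟨Hs, hHs⟩ : ∃ Hs : Submodule Ω E,
      ∀ u, u ∈ Hs ↔ ∀ x ∈ G.R a', u * G.X j ^ N * x ∈ G.W m (a' + N) α :=
    ⟨⨅ x ∈ G.R a', (G.W m (a' + N) α).comap (LinearMap.mulRight Ω (G.X j ^ N * x)), fun u => by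
      simp only [Submodule.mem_iInf, Submodule.mem_comap, LinearMap.mulRight_apply, mul_assoc]⟩
  have h1 : ∀ u ∈ Hs, u * G.X j ^ (a' + N) ∈ G.R (a' + N) := fun u hu => by
    have h := G.W_le_R _ _ _ ((hHs u).1 hu _ (G.f1_pow j a'))
    rwa [mul_assoc, ← pow_add, add_comm N] at h
  have := G.fd_R (a' + N)
  have : FiniteDimensional Ω Hs := Submodule.finiteDimensional_of_le
    (S₂ := (G.R (a' + N)).map (LinearMap.mulRight Ω (G.X j ^ (a' + N))⁻¹)) fun u hu =>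
      ⟨_, h1 u hu, mul_inv_cancel_right₀ (pow_ne_zero _ hX) u⟩
  have key := T.key hO A ht hu hφ (one_mem _) one_ne_zero one_pos klt ev Hs fun u hu => by
    have h2 := div_mem_C (h1 u hu) j
    rw [mul_div_cancel_right₀ _ (pow_ne_zero _ hX)] at h2
    refine ⟨⟨u, h2⟩, rfl, by_contra fun h3 => hcon ⟨u * G.X j ^ N, (hHs u).1 hu, ⟨u, h2⟩, ?_, h3⟩⟩
    exact (mul_div_cancel_right₀ _ (pow_ne_zero _ hX)).symm
  obtain ⟨N₁, hN₁⟩ := eventually_atTop.1 H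
  obtain ⟨c₁, Δ, hU, hθ, hx⟩ := T.exists_dat
  obtain ⟨s, v, hv⟩ := Submodule.fg_iff_exists_fin_generating_family.1
    ((Submodule.fg_iff_finiteDimensional _).2 (G.fd_R a'))
  obtain ⟨g, hg0, hg1⟩ : ∃ g : Option (Fin s) → E, g none = G.X j ^ a' ∧ ∀ i, g (some i) = v i :=
    ⟨fun o => o.elim (G.X j ^ a') v, rfl, fun _ => rfl⟩
  have hg : ∀ i, g i ∈ G.R a' := fun i => by
    cases i with
    | none => exact hg0 ▸ G.f1_pow j a'
    | some i => exact hg1 i ▸ hv.le (Submodule.subset_span ⟨i, rfl⟩)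
  have hs : G.R a' ≤ Submodule.span Ω (Set.range g) :=
    hv.ge.trans (Submodule.span_mono fun _ ⟨i, e⟩ => ⟨some i, (hg1 i).trans e⟩)
  have eO : G.ι '' T.O = Set.range G.ι :=
    Set.ext fun x => ⟨fun ⟨y, _, e⟩ => ⟨y, e⟩, fun ⟨y, e⟩ => ⟨y, hO y, e⟩⟩
  have gd : ∀ w ∈ Submodule.span Ω (Set.range G.ι),
      (MvPowerSeries.C (T.τF w) : SS Ω (Fin φ) (Fin b)) ∈ Good Ω (Fin φ) (Fin b) :=
    fun w hw => T.good_F (eO ▸ hw)
  have gg : ∀ i, (MvPowerSeries.C (T.τF (g i / G.X j ^ a')) : SS Ω (Fin φ) (Fin b)) ∈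
      Good Ω (Fin φ) (Fin b) := fun i => gd _ (by
    have := G.f2_span (Submodule.span_mono (Set.image_subset_range _ _) (G.R_eq a' ▸ hg i))
      (S.X j ^ a')⁻¹
    rwa [map_inv₀, map_pow, ← div_eq_mul_inv] at this)
  have gz : ∀ o, (MvPowerSeries.C (T.τF (G.ι (S.gen j o))) : SS Ω (Fin φ) (Fin b)) ∈
      Good Ω (Fin φ) (Fin b) := fun o => gd _ (Submodule.subset_span ⟨_, rfl⟩)
  have fin := t2_fin (I := Option (Fin s)) (O := Option ι) (N₁ + 1) (α + uno b)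
  have e1 := Δ.prod MonomialOrder.degLex m (a' + N) α
    (B := {x : Option (Fin s) × ℕ × (Option ι → ℕ) × (Fin b →₀ ℕ) //
      (N₁ + 1 ≤ x.2.1 ∧ x.2.1 < 2 * (N₁ + 1)) ∧ (∀ o, x.2.2.1 o ≤ x.2.1) ∧
        x.2.2.2 ≤ x.2.1 • (α + uno b)})
    (fun x => T.τF (g x.1.1 / G.X j ^ a') ^ x.1.2.1 * ∏ o, T.τF (G.ι (S.gen j o)) ^ x.1.2.2.1 o)
    (fun x => x.1.2.2.2) (fun x => x.1.2.1) fun x => by
      obtain ⟨w, hw, e⟩ := T.t2_lead he hN (hg x.1.1) x.2.2.1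
      rw [hU]
      exact T.mem_Wl_VT.2 ⟨w, G.W_down _ _ x.2.2.2
        ((hN₁ _ ((Nat.le_succ N₁).trans x.2.1.1)).ge hw), e⟩
  have := Δ.UU_fd m (a' + N)
  have := Jet.Wl_fd MonomialOrder.degLex (Δ.UU m (a' + N)) α
  have e2 := datr_inf Finset.univ (Δ.Wl_good MonomialOrder.degLex m (a' + N) α)
    (Δ.Wl_good MonomialOrder.degLex m (a' + N) α) gg
  obtain ⟨r, ⟨n₀, n₁, hp0, -, hk⟩, ⟨c, hc, h2⟩, h3, ig, iz, hp⟩ := (key.and_eventually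
    (e1.and (e2.and ((eventually_all.2 gg).and ((eventually_all.2 gz).and
      (ev_large (Ω := Ω) N₁)))))).exists
  obtain ⟨γ, hγ, hn⟩ := hk c hc
  obtain ⟨l, k, hk1, hk2⟩ := split_nat (Nat.succ_pos N₁) hp
  obtain ⟨d, hd1, hd2⟩ := split_le (fun u => k u • (α + uno b)) (ex r.p α) fun t => by
    rw [← Finset.sum_smul, hk2, ex_apply, Finsupp.smul_apply, Finsupp.add_apply, uno_apply,
      smul_eq_mul, mul_add, mul_one]
    omega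
  obtain ⟨κ, hκ1, hκ2⟩ := split_fun k γ fun o => hk2 ▸ (hγ o).le
  rw [hx, hθ, T.τ_const _ (hO _)] at h2
  have h4 := fun i => h2 n₀ hp0 l (fun u => ⟨(i, k u, κ u, d u), hk1 u, hκ1 u, hd1 u⟩) hk2.le hd2
  have h5 : ∀ i, (MvPowerSeries.C (c.Φ (t2_rd (Fin b) r (T.τF (G.ι T.θ)) ^ n₀ *
      ∏ o, t2_rd (Fin b) r (T.τF (G.ι (S.gen j o))) ^ γ o)) : SS r.k (Fin φ) (Fin b)) *
        r.red (MvPowerSeries.C (T.τF (g i / G.X j ^ a'))) ∈
      r.redS ((Jet.Wl MonomialOrder.degLex (Δ.UU m (a' + N)) α).map (CL Ω (Fin φ) (Fin b))) :=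
    fun i => by
      have h6 := h4 i
      simp only [t2_mon (ig i) iz] at h6
      rw [Finset.prod_mul_distrib, Finset.prod_pow_eq_pow_sum, hk2, Finset.prod_comm,
        mul_left_comm, c.Φ_mul, map_mul, mul_comm] at h6
      simp only [Finset.prod_pow_eq_pow_sum, hκ2] at h6
      rwa [t2_C]
  have h6 := h5 none
  rw [hg0, T.f1_one, map_one, Rd.red_one, mul_one] at h6
  have h7 := h3 _ h6 fun i _ => h5 i
  rw [hU] at h7
  rw [map_one, T.τF_one, t2_one, one_pow, one_mul] at hn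
  exact hn (r.redS_mono (T.t2_le hg hs fun u => (hHs u).2) h7)

end Pool.Agent.Lib.MP_bc213e_ag.DD.Geo
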