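import Pool.Agent.Lib.MP_bc213e_ag.DN.Step
import Pool.Agent.Lib.MP_bc213e_ag.KL.T.T1
import Pool.Agent.Lib.MP_bc213e_ag.KL.T.T2
import Pool.Agent.Lib.MP_bc213e_ag.KL.T.Tau
import Pool.Agent.Lib.MP_bc213e_ag.KL.T.GenU
import Pool.Agent.Lib.MP_bc213e_ag.KL.V.Out
import Pool.Agent.Lib.MP_bc213e_ag.VK.Desc

/-! Comparison of the dimensions at two proportional levels for a klt pair. -/

namespace Pool.Agent.Lib.MP_bc213e_ag.DD.Geo

open Filter Module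

variable {K M ι : Type} [Field K] [Algebra ℂ K] [Field M] [Algebra ℂ M] [Algebra K M] {n : ℕ}
  {S : Su K M ι n} {Ω E : Type} [Field Ω] [Algebra ℂ Ω] [Field E] [Algebra ℂ E] [Algebra Ω E]
  [IsScalarTower ℂ Ω E] {b φ : ℕ} (G : Geo S Ω E b φ) [IsScalarTower ℂ K M] [Fintype ι]
  [CharZero E]

theorem geo_lowk [IsAlgClosed Ω] (hd : S.d₀ = n - 1) {d : ℕ} (hk : S.VK d) (hb : d + 2 ≤ b) :
    ∃ a₁, ∀ a s, a₁ ≤ a → 0 < s → ∀ᶠ m : ℕ in atTop, ∀ k w, 0 < k → (s + 1) * k ≤ s * w →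
      ∀ β : Fin b →₀ ℕ, G.W (k * m) (k * a) β ≠ ⊥ →
        G.W m a (β.mapRange (· / w) (Nat.zero_div w)) = G.R a := by
  have hc := G.card
  rcases Nat.eq_zero_or_pos φ with hφ | hφ
  · exact G.geo_low (by omega)
  choose c₀ e₀ ev₀ T hT using G.exists_tau_gen (by omega)
  choose A ht hu klt c hA using G.vout hk hb hφ
  obtain ⟨e, -, he⟩ := S.exists_e
  have he' : ∀ j o, S.X j ^ e * S.gen j o ∈ S.U e := fun j o => S.V_le_U 1 e (he j o)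
  obtain ⟨c₁, hc₁⟩ : ∃ c₁, ∀ j, c j ≤ c₁ :=
    ⟨Finset.univ.sup c, fun j => Finset.le_sup (Finset.mem_univ j)⟩
  obtain ⟨N, hN⟩ : ∃ N, N = e * (Fintype.card ι + 1) := ⟨_, rfl⟩
  obtain ⟨a₁, h2⟩ := G.genu N
  obtain ⟨m₁, h0⟩ := G.full_zero
  refine ⟨a₁ + 3 * N + 1, fun a s ha hs => ?_⟩
  have ha0 : 0 < a := by omega
  obtain ⟨m₀, hc⟩ := G.cube ((s + 1) * (2 * (c₁ * a + 1) + 5)) a ha0
  filter_upwards [eventually_ge_atTop (m₀ + m₁)] with m hm k w hk hw β hβ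
  obtain ⟨k₀, hk₀, hc⟩ := hc m (by omega)
  have F0 : ∀ k, 0 < k → G.W (k * m) (k * a) 0 = G.R (k * a) := fun k hk =>
    h0 _ _ (by nlinarith)
  have := low (G := fun k => {α | G.W (k * m) (k * a) α ≠ ⊥})
    (F := fun k => {α | G.W (k * m) (k * a) α = G.R (k * a)}) (G.gam m a)
    (fun k α β h hβ => G.full_down h hβ) F0 (M := c₁ * a + 1) (Nat.succ_pos _)
    (fun K₁ α₁ α₂ γ hK h₁ h₂ hγ => G.bpf_full ha0 F0 fun j ev => by
      obtain ⟨w, wk, w0, w1⟩ := G.W_desc h₁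
      obtain ⟨w2, w3⟩ := hA j (K₁ * a) ((c₁ * a + 1 + 1) * K₁) w (Nat.mul_pos hK ha0)
        (by nlinarith [Nat.mul_le_mul_right (K₁ * a) (hc₁ j)]) w0 wk
      refine (T j).t1k (hT j) (A j) (ht j) (hu j) hφ (he' j) w0 w1 w2 (by positivity) w3 h₂ hγ
        (by nlinarith) ?_ ev
      rw [← hN]
      calc N * ((c₁ * a + 1 + 1) * K₁) ≤ N * (3 * ((c₁ * a + 1) * K₁)) :=
            Nat.mul_le_mul_left _ (by nlinarith [Nat.zero_le (c₁ * a * K₁)])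
        _ = (c₁ * a + 1) * K₁ * (3 * N) := by ring
        _ ≤ _ := Nat.mul_le_mul_left _ (by omega))
    (fun α h => by
      obtain ⟨a', rfl⟩ : ∃ a', a = a' + N := ⟨a - N, by omega⟩
      let H : Submodule Ω E := ⨅ g ∈ G.R a', (G.W m (a' + N) α).comap (LinearMap.mulRight Ω g)
      have hH : ∀ h, h ∈ H ↔ ∀ g ∈ G.R a', h * g ∈ G.W m (a' + N) α := fun h => by
        simp [H, Submodule.mem_iInf]
      have h3 := h2 H (fun h hh l => by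
        have h4 := div_mem_C (G.W_le_R _ _ _ ((hH h).1 hh _ (G.f1_pow l a'))) l
        rwa [pow_add, mul_comm h, mul_div_mul_left _ _ (pow_ne_zero _ (G.X_ne l))] at h4)
        (fun j ev => by
          obtain ⟨h, h4, h5⟩ := (T j).t2k (hT j) (A j) (ht j) (hu j) hφ (klt j) (he' j) hN.ge h ev
          exact ⟨h, (hH h).2 h4, h5⟩) a' (by omega)
      simpa using le_antisymm (G.W_le_R _ _ _)
        (h3.trans (Submodule.mul_le.2 fun h hh g hg => (hH h).1 hh g hg)))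
    hs hk₀ hc hk hw hβ
  simpa using this

theorem geo_cmpk [IsAlgClosed Ω] (hd : S.d₀ = n - 1) {d : ℕ} (hk : S.VK d) (hb : d + 2 ≤ b) :
    ∃ a₁, ∀ a, a₁ ≤ a → ∀ k₁ k₂ s : ℕ, 0 < k₁ → 0 < k₂ → 0 < s → ∀ᶠ m : ℕ in atTop,
      finrank ℂ (S.V (k₁ * m) (k₁ * a)) * finrank Ω (G.R (k₂ * a)) * (k₂ * s ^ 2) ^ b ≤
        finrank ℂ (S.V (k₂ * m) (k₂ * a)) * finrank Ω (G.R (k₁ * a)) *
          (k₁ * (s + 1) ^ 2) ^ b := by
  obtain ⟨a₁, h⟩ := G.geo_lowk hd hk hb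
  refine ⟨a₁ + 1, fun a ha k₁ k₂ s h₁ h₂ hs => ?_⟩
  obtain ⟨m₀, hc⟩ := G.cube s a (by omega)
  have ht : Tendsto (fun m : ℕ => k₂ * m) atTop atTop :=
    tendsto_atTop_mono (fun m => Nat.le_mul_of_pos_left m h₂) tendsto_id
  filter_upwards [eventually_ge_atTop m₀, ht.eventually (h (k₂ * a) s (by nlinarith) hs)]
    with m hm hl
  obtain ⟨k₀, hk₀, hc⟩ := hc m hm
  have e := cmp (G.gam m a) (G.full_finite (k₂ * m) (k₂ * a)) h₁ h₂ hs hk₀ hc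
    fun k w hk hw β hβ => hl k w hk hw β (by
      rw [← mul_assoc, ← mul_assoc]
      exact hβ)
  have e1 := G.dim_le (k₁ * m) (k₁ * a)
  have e2 := G.le_dim (k₂ * m) (k₂ * a)
  calc _ ≤ {α | G.W (k₁ * m) (k₁ * a) α ≠ ⊥}.ncard * finrank Ω (G.R (k₁ * a)) *
        finrank Ω (G.R (k₂ * a)) * (k₂ * s ^ 2) ^ b := by gcongr
    _ = {α | G.W (k₁ * m) (k₁ * a) α ≠ ⊥}.ncard * (k₂ * s ^ 2) ^ b *
        (finrank Ω (G.R (k₁ * a)) * finrank Ω (G.R (k₂ * a))) := by ring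
    _ ≤ {α | G.W (k₂ * m) (k₂ * a) α = G.R (k₂ * a)}.ncard * (k₁ * (s + 1) ^ 2) ^ b *
        (finrank Ω (G.R (k₁ * a)) * finrank Ω (G.R (k₂ * a))) := Nat.mul_le_mul_right _ e
    _ = {α | G.W (k₂ * m) (k₂ * a) α = G.R (k₂ * a)}.ncard * finrank Ω (G.R (k₂ * a)) *
        finrank Ω (G.R (k₁ * a)) * (k₁ * (s + 1) ^ 2) ^ b := by ring
    _ ≤ _ := by gcongr

end Pool.Agent.Lib.MP_bc213e_ag.DD.Geo
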