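import Pool.Agent.Lib.MP_bc213e_ag.DN.Main
import Pool.Agent.Lib.MP_bc213e_ag.KL.T.Step

/-! The theorem for klt pairs. -/

namespace Pool.Agent.Lib.MP_bc213e_ag.DD

open Pool.Agent.Lib.MP_bc213e_ag.Hyp Pool.Agent.Lib.MP_bc213e_ag.KBB Filter Module Polynomial

variable {K M ι : Type} [Field K] [Algebra ℂ K] [Field M] [Algebra ℂ M] [Algebra K M]
  [IsScalarTower ℂ K M] [Fintype ι] {n : ℕ} (S : Su K M ι n) {ν j : ℕ} {P : ℚ[X][X]}

theorem Su.basek (hd : S.d₀ = n - 1) (hk : S.VK (ν + j)) (deg : P.natDegree ≤ ν)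
    (order : ¬ Polynomial.X ^ (j + 1) ∣ P.coeff ν)
    (hilbert : ∀ t : ℕ, ∀ᶠ a : ℕ in atTop,
      (finrank ℂ (SecS S.x S.g t a) : ℚ) = P.evalEval (a : ℚ) (t : ℚ)) :
    ∃ k : IntermediateField ℂ M, Algebra.trdeg ℂ k ≤ (ν + j + 1 : ℕ) ∧
      ∀ a : ℕ, FiniteDimensional k (Submodule.span k {f | ∃ (i : ℕ) (s : K),
        Sec S.x S.g i a s ∧ f = algebraMap K M s * S.u ^ i}) := by
  obtain ⟨a₀, hP⟩ := S.unif hilbert
  obtain ⟨Ω, _, _, _, hΩ⟩ := exists_univ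
  obtain ⟨E, _, _, _, _, b, φ, ⟨G⟩⟩ := exists_geo S Ω hΩ
  have : CharZero E := charZero_of_injective_algebraMap (algebraMap ℂ E).injective
  have hb : b ≤ ν + 1 + j := by
    by_contra hb
    obtain ⟨a₁, hc⟩ := G.geo_cmpk hd hk (by omega)
    exact hb (num P deg order (fun t a => finrank ℂ (SecS S.x S.g t a)) a₀ hP
      (fun a => finrank Ω (G.R a)) G.R_pos (a := a₀ + a₁ + 1) (by omega) (by omega)
      fun k₁ k₂ s h₁ h₂ hs => by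
        simpa only [S.finrank_V] using hc (a₀ + a₁ + 1) (by omega) k₁ k₂ s h₁ h₂ hs)
  refine ⟨G.k, ?_, fun a => ?_⟩
  · rw [G.trdeg_k]
    exact_mod_cast hb.trans_eq (by ring)
  · have := G.toFib.fd_k a.succ_pos
    refine Submodule.finiteDimensional_of_le (S₂ := Submodule.span G.k (S.U (a + 1) : Set M))
      (Submodule.span_mono ?_)
    rintro _ ⟨i, s, hs, rfl⟩
    exact S.U_mono a.le_succ (S.V_le_U i a (S.sec_mem_V le_rfl hs))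

theorem Su.torsionk (hd : S.d₀ = n - 1) (hk : S.VK (ν + j)) (deg : P.natDegree ≤ ν)
    (order : ¬ Polynomial.X ^ (j + 1) ∣ P.coeff ν)
    (hilbert : ∀ t : ℕ, ∀ᶠ a : ℕ in atTop,
      (finrank ℂ (SecS S.x S.g t a) : ℚ) = P.evalEval (a : ℚ) (t : ℚ)) :
    ∃ (k : IntermediateField ℂ K) (N : ℕ) (θ : K), Algebra.trdeg ℂ k ≤ (ν + j : ℕ) ∧ 0 < N ∧
      ∀ i (O : ValuationSubring K), (∀ c ∈ k, c ∈ O) → (∀ r ∈ chart S.x i, r ∈ O) →
        O.valuation θ = O.valuation ((S.g i : K) ^ N) := by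
  obtain ⟨k, h1, h2⟩ := S.basek hd hk deg order hilbert
  exact DS.torsion S.cart S.nef S.i₀ S.u S.tr S.top k h1 h2

theorem Su.growthk (hd : S.d₀ = n - 1) (hk : S.VK ν) (deg : P.natDegree ≤ ν)
    (chi : (P.coeff ν).eval 0 ≠ 0)
    (hilbert : ∀ t : ℕ, ∀ᶠ a : ℕ in atTop,
      (finrank ℂ (SecS S.x S.g t a) : ℚ) = P.evalEval (a : ℚ) (t : ℚ)) :
    ∃ δ : ℚ, 0 < δ ∧ ∃ᶠ t : ℕ in atTop, δ * (t : ℚ) ^ ν ≤ finrank ℂ (SecS S.x S.g t 0) := by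
  obtain ⟨k, h1, h2⟩ := S.basek (j := 0) hd hk deg (fun h => chi (by
    rw [← coeff_zero_eq_eval_zero, ← X_dvd_iff]
    simpa using h)) hilbert
  obtain ⟨a₀, hP⟩ := S.unif hilbert
  obtain ⟨a, c, -, hc0, big⟩ := num_big P deg (fun h => chi (by rw [h, eval_zero]))
    (fun t a => finrank ℂ (SecS S.x S.g t a)) a₀ hP
  exact DS.endgame S.frac S.norm S.one S.cart S.nef
    ((TCI.trdeg_eq_card S.τ S.hτ).trans (by rw [Fintype.card_fin])) S.u S.tr S.top k h1 a (h2 a)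
    hc0 big

end Pool.Agent.Lib.MP_bc213e_ag.DD
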