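import Pool.Agent.Lib.MP_bc213e_ag.KL.S.Key
import Pool.Agent.Lib.MP_bc213e_ag.DC.GlueB
import Pool.Agent.Lib.MP_bc213e_ag.VK.Defs

/-! The key statement on the fibre. -/

namespace Pool.Agent.Lib.MP_bc213e_ag.DD.Geo

open Pool.Agent.Lib.MP_bc213e_ag.KL Pool.Agent.Lib.MP_bc213e_ag.DC MvPowerSeries Filter

variable {K M ι : Type} [Field K] [Algebra ℂ K] [Field M] [Algebra ℂ M] [Algebra K M] {n : ℕ}
  {S : Su K M ι n} {Ω E : Type} [Field Ω] [Algebra ℂ Ω] [Field E] [Algebra ℂ E] [Algebra Ω E]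
  [IsScalarTower ℂ Ω E] {b φ : ℕ} {G : Geo S Ω E b φ} [IsScalarTower ℂ K M] [Fintype ι]
  [CharZero E]

theorem Tau.key {c₀ e₀ : ℕ} {j : ι} {ev₀ : G.C j →ₐ[Ω] Ω} (T : G.Tau c₀ e₀ j ev₀)
    (hO : ∀ f, f ∈ T.O) (A : Af G.k M (Option ι) φ S.m) (ht : A.t = S.gen j)
    (hu : ∀ z : Fin φ → M, S.mu (Sum.elim G.y z ∘ G.ε) = A.u * Jac A.D z ^ S.m) (hφ : 1 ≤ φ)
    {w : M} (hw : w ∈ A.R) (h0 : w ≠ 0) {q : ℕ} (hq : 0 < q) (klt : A.Klt w q)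
    (ev : G.C j →ₐ[Ω] Ω) (H : Submodule Ω E) [FiniteDimensional Ω H]
    (hH : ∀ h ∈ H, ∃ f : G.C j, (f : E) = h ∧ ev f = 0) :
    ∃ᶠ ρ in RF Ω, ∃ n₀ n₁, ρ.p = S.m * n₀ + 1 ∧ ρ.p = q * n₁ + 1 ∧
      ∀ c : Car ρ.k (MvPowerSeries (Fin φ) ρ.k) (Fin φ) ρ.p, (c.der = fun i => pderiv ρ.k i) →
        ∃ γ : Option ι → ℕ, (∀ i, γ i < ρ.p) ∧
          (MvPowerSeries.C (c.Φ (t2_rd (Fin b) ρ (T.τF (G.ι T.θ)) ^ n₀ *
            (t2_rd (Fin b) ρ (T.τF (G.ι w)) ^ n₁ *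
              ∏ o, t2_rd (Fin b) ρ (T.τF (G.ι (S.gen j o))) ^ γ o))) : SS ρ.k (Fin φ) (Fin b)) ∉
            ρ.redS ((H.map T.τF).map (CL Ω (Fin φ) (Fin b))) := by
  have := G.k_charZero
  have oi : ∀ f, G.ι f ∈ T.OF := fun f => T.ι_mem (hO f)
  have hR : ∀ f : A.R, G.ι f ∈ G.C j := fun f => G.ι_mem_of_Dk (by
    change f.1 ∈ Algebra.adjoin G.k (Set.range (S.gen j))
    rw [← ht]
    exact f.2)
  let E₀ : M →+* MvPowerSeries (Fin φ) Ω :=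
    T.homF.toRingHom.comp ((G.ι : M →+* E).codRestrict T.OF oi)
  have hE : ∀ f, E₀ f = T.τF (G.ι f) := fun f => rfl
  let τ : A.R →+* Ω :=
    ev.toRingHom.comp (((G.ι : M →+* E).comp (A.R.val : A.R →+* M)).codRestrict (G.C j) hR)
  have eO : G.ι '' T.O = Set.range G.ι :=
    Set.ext fun x => ⟨fun ⟨y, _, e⟩ => ⟨y, e⟩, fun ⟨y, e⟩ => ⟨y, hO y, e⟩⟩
  have h := A.key hφ (Nat.pos_of_ne_zero S.mpos) hw h0 hq klt (σ := Fin b)
    ((G.e : M →+* Ω).comp (G.k.val : G.k →+* M)) τ (fun c => ?_) E₀ (fun c => ?_)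
    (fun f => T.good_F (Submodule.subset_span ⟨f, hO f, rfl⟩)) (fun J f hf => ?_) T.θ
    (fun z => ?_) (H.map T.τF) fun h hh => ?_
  · simpa only [hE, ht] using h
  · exact (congrArg ev (Subtype.ext (G.toFib.ι_k c.2))).trans (ev.commutes _)
  · exact (congrArg T.homF (Subtype.ext (G.toFib.ι_k c.2))).trans (T.homF.commutes _)
  · refine (G.toFib.indep hf).map (f := T.τF) (Submodule.disjoint_def.2 fun x hx h => ?_)
    refine T.τF_inj x (T.span_le_OF (Submodule.span_mono ?_ hx)) h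
    rintro _ ⟨i, rfl⟩
    exact ⟨f i, hO _, rfl⟩
  · rw [← hu, T.mu_dt, map_mul, map_pow]
    exact congrArg (fun y => E₀ T.θ * y ^ S.m) (T.jac_F z fun c => hO _).symm
  · obtain ⟨h, h1, rfl⟩ := hh
    obtain ⟨f, rfl, h2⟩ := hH h h1
    have h3 : (f : E) ∈ Algebra.adjoin Ω (Set.range fun o => G.ι (S.gen j o)) := f.2
    rw [Algebra.adjoin_range_eq_range_aeval] at h3
    obtain ⟨P, hP⟩ := h3
    have h4 : MvPolynomial.aeval (fun o => (⟨_, G.ι_mem_C (S.gen_mem j o)⟩ : G.C j)) P = f :=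
      Subtype.ext ((MvPolynomial.comp_aeval_apply _ (G.C j).val P).trans hP)
    have h5 : MvPolynomial.aeval (fun o => (⟨_, oi (S.gen j o)⟩ : T.OF)) P = ⟨f, T.C_le f.2⟩ :=
      Subtype.ext ((MvPolynomial.comp_aeval_apply _ T.OF.val P).trans hP)
    refine ⟨P, ?_, ?_⟩
    · rw [ht]
      exact (MvPolynomial.comp_aeval_apply _ T.homF P).symm.trans (congrArg T.homF h5)
    · rw [← h2, ← h4, MvPolynomial.comp_aeval_apply]
      congr 2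
      funext o
      exact congrArg ev (Subtype.ext (congrArg G.ι (congrFun ht o)))

end Pool.Agent.Lib.MP_bc213e_ag.DD.Geo
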