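import Mathlib

/-! A uniform bound from the ascending chain condition. -/

namespace Pool.Agent.Lib.MP_bc213e_ag.KL

variable {Ω E : Type} [Field Ω] [CommRing E] [Algebra Ω E]

theorem noe_rep {s : ℕ} (h : Fin s → E) (A : Submodule Ω E) {x : E}
    (hx : x ∈ Submodule.span Ω (Set.range h) * A) :
    ∃ a : Fin s → E, (∀ i, a i ∈ A) ∧ x = ∑ i, h i * a i := by
  refine Submodule.mul_induction_on hx (fun m hm n hn => ?_) ?_
  · obtain ⟨c, rfl⟩ := (Submodule.mem_span_range_iff_exists_fun Ω).1 hm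
    exact ⟨fun i => c i • n, fun i => A.smul_mem _ hn, by simp [Finset.sum_mul]⟩
  · rintro _ _ ⟨a, ha, rfl⟩ ⟨b, hb, rfl⟩
    exact ⟨a + b, fun i => A.add_mem (ha i) (hb i), by simp [mul_add, Finset.sum_add_distrib]⟩

/-- Surjectivity is an open condition. -/
theorem noe_open {s : ℕ} (v : Fin s → E) (A B : Submodule Ω E) [FiniteDimensional Ω B]
    (hm : ∀ j, ∀ a ∈ A, v j * a ∈ B) (y₀ : Fin s × Fin s → Ω)
    (h : B ≤ Submodule.span Ω (Set.range fun i => ∑ j, y₀ (i, j) • v j) * A) :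
    ∃ f : MvPolynomial (Fin s × Fin s) Ω, MvPolynomial.eval y₀ f ≠ 0 ∧
      ∀ y, MvPolynomial.eval y f ≠ 0 →
        B ≤ Submodule.span Ω (Set.range fun i => ∑ j, y (i, j) • v j) * A := by
  classical
  let b := Module.finBasis Ω B
  choose a ha hb using fun l => noe_rep _ A (h (b l).2)
  let u : _ → Fin s × Fin s → B := fun l q => ⟨v q.2 * a l q.1, hm _ _ (ha l q.1)⟩
  let e : (Fin s × Fin s → Ω) → _ → B := fun y l => ∑ q, y q • u l q
  have he : ∀ y l, (e y l : E) = ∑ i, (∑ j, y (i, j) • v j) * a l i := fun y l => by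
    simp [e, u, Fintype.sum_prod_type, Finset.sum_mul]
  let P : Matrix _ _ (MvPolynomial (Fin s × Fin s) Ω) :=
    Matrix.of fun m l => ∑ q, MvPolynomial.X q * MvPolynomial.C (b.repr (u l q) m)
  have hP : ∀ y, MvPolynomial.eval y P.det = b.det (e y) := fun y => by
    rw [RingHom.map_det, Module.Basis.det_apply]
    refine congrArg Matrix.det (Matrix.ext fun m l => ?_)
    simp [P, e, Module.Basis.toMatrix_apply]
  refine ⟨P.det, ?_, fun y hy x hx => ?_⟩
  · rw [hP, show e y₀ = b from funext fun l => Subtype.ext ((he y₀ l).trans (hb l).symm),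
      Module.Basis.det_self]
    exact one_ne_zero
  · have h1 := ((Module.Basis.is_basis_iff_det b).2 (Ne.isUnit (hP y ▸ hy))).2
    obtain ⟨c, hc⟩ := (Submodule.mem_span_range_iff_exists_fun Ω).1
      (h1 ▸ Submodule.mem_top : (⟨x, hx⟩ : B) ∈ Submodule.span Ω (Set.range (e y)))
    have h2 : x = ∑ l, c l • (e y l : E) := by simpa using (congrArg Subtype.val hc).symm
    rw [h2]
    refine Submodule.sum_mem _ fun l _ => Submodule.smul_mem _ _ ?_
    rw [he]
    exact Submodule.sum_mem _ fun i _ =>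
      Submodule.mul_mem_mul (Submodule.subset_span ⟨i, rfl⟩) (ha l i)

theorem noe_span {s : ℕ} {V H : Submodule Ω E} (b : Module.Basis (Fin s) Ω V) (hH : H ≤ V) :
    ∃ y : Fin s × Fin s → Ω,
      Submodule.span Ω (Set.range fun i => ∑ j, y (i, j) • (b j : E)) = H := by
  obtain ⟨g, hg⟩ := (Submodule.inclusion hH).exists_leftInverse_of_injective
    (Submodule.ker_inclusion _ _ hH)
  refine ⟨fun q => b.repr (Submodule.inclusion hH (g (b q.1))) q.2, ?_⟩
  have h1 : (fun i => ∑ j, b.repr (Submodule.inclusion hH (g (b i))) j • (b j : E)) =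
      fun i => (g (b i) : E) := funext fun i => by
    have := congrArg V.subtype (b.sum_repr (Submodule.inclusion hH (g (b i))))
    simp only [map_sum, map_smul] at this
    exact this
  rw [h1]
  refine le_antisymm (Submodule.span_le.2 ?_) fun x hx => ?_
  · rintro _ ⟨i, rfl⟩
    exact (g (b i)).2
  · have h2 := LinearMap.congr_fun hg ⟨x, hx⟩
    rw [LinearMap.comp_apply, ← b.sum_repr (Submodule.inclusion hH ⟨x, hx⟩), map_sum] at h2
    refine (Submodule.mem_span_range_iff_exists_fun Ω).2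
      ⟨b.repr (Submodule.inclusion hH ⟨x, hx⟩), ?_⟩
    simpa using congrArg Subtype.val h2

/-- The ideals of the sets where surjectivity fails form an ascending chain. -/
theorem noe (V : Submodule Ω E) [FiniteDimensional Ω V] (A B : ℕ → Submodule Ω E)
    (hB : ∀ a, FiniteDimensional Ω (B a)) (hm : ∀ a, V * A a ≤ B a)
    (step : ∀ a, ∀ H ≤ V, B a ≤ H * A a → B (a + 1) ≤ H * A (a + 1)) :
    ∃ a₁, ∀ H ≤ V, (∃ a, B a ≤ H * A a) → ∀ a, a₁ ≤ a → B a ≤ H * A a := by
  let b := Module.finBasis Ω V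
  let S : (Fin (Module.finrank Ω V) × _ → Ω) → Submodule Ω E := fun y =>
    Submodule.span Ω (Set.range fun i => ∑ j, y (i, j) • (b j : E))
  have hS : ∀ y, S y ≤ V := fun y => Submodule.span_le.2 (by
    rintro _ ⟨i, rfl⟩
    exact V.sum_mem fun j _ => V.smul_mem _ (b j).2)
  have up : ∀ H ≤ V, ∀ a a', a ≤ a' → B a ≤ H * A a → B a' ≤ H * A a' := fun H hH a a' h h1 => by
    induction h with
    | refl => exact h1
    | step _ ih => exact step _ H hH ih
  let I : ℕ →o Ideal (MvPolynomial _ Ω) :=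
    ⟨fun a => ⨅ y ∈ {y | ¬ B a ≤ S y * A a}, RingHom.ker (MvPolynomial.eval y),
      fun a a' h => biInf_mono fun y hy h1 => hy (up _ (hS y) a a' h h1)⟩
  have hI : ∀ a f, f ∈ I a ↔ ∀ y, ¬ B a ≤ S y * A a → MvPolynomial.eval y f = 0 := fun a f => by
    simp only [I, OrderHom.coe_mk, Ideal.mem_iInf, RingHom.mem_ker, Set.mem_ofPred_eq]
  obtain ⟨n, hn⟩ := monotone_stabilizes_iff_noetherian.2 inferInstance I
  refine ⟨n, fun H hH ⟨a, ha⟩ a' h => ?_⟩
  obtain ⟨y₀, rfl⟩ := noe_span b hH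
  have := hB (max a n)
  obtain ⟨f, h1, h2⟩ := noe_open (fun j => (b j : E)) (A (max a n)) (B (max a n))
    (fun j x hx => hm _ (Submodule.mul_mem_mul (b j).2 hx)) y₀
    (up _ hH a _ (le_max_left _ _) ha)
  have h3 : f ∈ I (max a n) := (hI _ f).2 fun y hy => not_not.1 fun h4 => hy (h2 y h4)
  rw [← hn _ (le_max_right _ _), hn _ h] at h3
  exact not_not.1 fun h4 => h1 ((hI _ f).1 h3 y₀ h4)

end Pool.Agent.Lib.MP_bc213e_ag.KL
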